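import Pool.Agent.Helper82.BR.St

set_option autoImplicit false

namespace Pool.Agent.Helper56.BR

open Pool.Agent.Helper82.BR

/-- CC with the additional hypothesis `r ≠ 0`. -/
theorem hCC' (D : Finset ℂ) (w p r : ℂ) (hw : w ^ 2 = w - 1) (hp : p ≠ 0) (hr : r ≠ 0)
    (hD : D.card ≤ 6)
    (h : ∀ x ∈ ({p, p * w, p * w ^ 2, r} : Finset ℂ),
      ∀ y ∈ ({p, p * w, p * w ^ 2, r} : Finset ℂ), x * y ∈ D)
    (h1 : r ≠ p) (h2 : r ≠ p * w) (h3 : r ≠ p * w ^ 2) (h4 : r ≠ -p) (h5 : r ≠ -(p * w))
    (h6 : r ≠ -(p * w ^ 2)) : False := by
  have hw3 : w ^ 3 = -1 := by linear_combination (w + 1) * hw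
  have hw0 : w ≠ 0 := by
    intro e
    rw [e] at hw
    norm_num at hw
  have hw1 : w ≠ 1 := by
    intro e
    rw [e] at hw
    norm_num at hw
  have hwm : w ≠ -1 := by
    intro e
    rw [e] at hw
    norm_num at hw
  have hp2 : p ^ 2 ≠ 0 := pow_ne_zero 2 hp
  have mp : p ∈ ({p, p * w, p * w ^ 2, r} : Finset ℂ) := by simp
  have mpw : p * w ∈ ({p, p * w, p * w ^ 2, r} : Finset ℂ) := by simp
  have mpw2 : p * w ^ 2 ∈ ({p, p * w, p * w ^ 2, r} : Finset ℂ) := by simp
  have mr : r ∈ ({p, p * w, p * w ^ 2, r} : Finset ℂ) := by simp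
  have a1 : p ^ 2 ∈ D := by
    have := h p mp p mp
    rwa [← sq] at this
  have a2 : p ^ 2 * w ∈ D := by
    have := h p mp (p * w) mpw
    rwa [← mul_assoc, ← sq] at this
  have a3 : p ^ 2 * w ^ 2 ∈ D := by
    have := h p mp (p * w ^ 2) mpw2
    rwa [← mul_assoc, ← sq] at this
  have a4 : -p ^ 2 ∈ D := by
    have := h (p * w) mpw (p * w ^ 2) mpw2
    have e : p * w * (p * w ^ 2) = -p ^ 2 := by linear_combination p ^ 2 * hw3
    rwa [e] at this
  have a5 : -(p ^ 2 * w) ∈ D := by
    have := h (p * w ^ 2) mpw2 (p * w ^ 2) mpw2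
    have e : p * w ^ 2 * (p * w ^ 2) = -(p ^ 2 * w) := by linear_combination p ^ 2 * w * hw3
    rwa [e] at this
  have a6 : p * r ∈ D := h p mp r mr
  have a7 : p * w * r ∈ D := h (p * w) mpw r mr
  -- the seven elements are distinct
  have n12 : p ^ 2 ≠ p ^ 2 * w := by
    intro e
    apply hw1
    have : p ^ 2 * (w - 1) = 0 := by linear_combination -e
    rcases mul_eq_zero.mp this with k | k
    · exact absurd k hp2
    · linear_combination k
  have n13 : p ^ 2 ≠ p ^ 2 * w ^ 2 := by
    intro e
    have : p ^ 2 * (w - 2) = 0 := by linear_combination -e - p ^ 2 * hw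
    rcases mul_eq_zero.mp this with k | k
    · exact hp2 k
    · have k' : w = 2 := by linear_combination k
      rw [k'] at hw
      norm_num at hw
  have n14 : p ^ 2 ≠ -p ^ 2 := by
    intro e
    apply hp2
    linear_combination e / 2
  have n15 : p ^ 2 ≠ -(p ^ 2 * w) := by
    intro e
    apply hwm
    have : p ^ 2 * (w + 1) = 0 := by linear_combination e
    rcases mul_eq_zero.mp this with k | k
    · exact absurd k hp2
    · linear_combination k
  have n16 : p ^ 2 ≠ p * r := by
    intro e
    apply h1
    have : p * (r - p) = 0 := by linear_combination -e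
    rcases mul_eq_zero.mp this with k | k
    · exact absurd k hp
    · linear_combination k
  have n17 : p ^ 2 ≠ p * w * r := by
    intro e
    apply h6
    have : p * (r + p * w ^ 2) = 0 := by
      linear_combination (w ^ 2) * e + p * r * hw3
    rcases mul_eq_zero.mp this with k | k
    · exact absurd k hp
    · linear_combination k
  have n23 : p ^ 2 * w ≠ p ^ 2 * w ^ 2 := by
    intro e
    apply hp2
    linear_combination e + p ^ 2 * hw
  have n24 : p ^ 2 * w ≠ -p ^ 2 := by
    intro e
    apply hwm
    have : p ^ 2 * (w + 1) = 0 := by linear_combination e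
    rcases mul_eq_zero.mp this with k | k
    · exact absurd k hp2
    · linear_combination k
  have n25 : p ^ 2 * w ≠ -(p ^ 2 * w) := by
    intro e
    apply mul_ne_zero hp2 hw0
    linear_combination e / 2
  have n26 : p ^ 2 * w ≠ p * r := by
    intro e
    apply h2
    have : p * (r - p * w) = 0 := by linear_combination -e
    rcases mul_eq_zero.mp this with k | k
    · exact absurd k hp
    · linear_combination k
  have n27 : p ^ 2 * w ≠ p * w * r := by
    intro e
    apply h1
    have : p * w * (r - p) = 0 := by linear_combination -e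
    rcases mul_eq_zero.mp this with k | k
    · exact absurd k (mul_ne_zero hp hw0)
    · linear_combination k
  have n34 : p ^ 2 * w ^ 2 ≠ -p ^ 2 := by
    intro e
    apply mul_ne_zero hp2 hw0
    linear_combination e - p ^ 2 * hw
  have n35 : p ^ 2 * w ^ 2 ≠ -(p ^ 2 * w) := by
    intro e
    have : p ^ 2 * (2 * w - 1) = 0 := by linear_combination e - p ^ 2 * hw
    rcases mul_eq_zero.mp this with k | k
    · exact hp2 k
    · have k' : w = 1 / 2 := by linear_combination k / 2
      rw [k'] at hw
      norm_num at hw
  have n36 : p ^ 2 * w ^ 2 ≠ p * r := by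
    intro e
    apply h3
    have : p * (r - p * w ^ 2) = 0 := by linear_combination -e
    rcases mul_eq_zero.mp this with k | k
    · exact absurd k hp
    · linear_combination k
  have n37 : p ^ 2 * w ^ 2 ≠ p * w * r := by
    intro e
    apply h2
    have : p * w * (r - p * w) = 0 := by linear_combination -e
    rcases mul_eq_zero.mp this with k | k
    · exact absurd k (mul_ne_zero hp hw0)
    · linear_combination k
  have n45 : -p ^ 2 ≠ -(p ^ 2 * w) := by
    intro e
    exact n12 (neg_injective e)
  have n46 : -p ^ 2 ≠ p * r := by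
    intro e
    apply h4
    have : p * (r + p) = 0 := by linear_combination -e
    rcases mul_eq_zero.mp this with k | k
    · exact absurd k hp
    · linear_combination k
  have n47 : -p ^ 2 ≠ p * w * r := by
    intro e
    apply h3
    have : p * (r - p * w ^ 2) = 0 := by
      linear_combination (w ^ 2) * e + p * r * hw3
    rcases mul_eq_zero.mp this with k | k
    · exact absurd k hp
    · linear_combination k
  have n56 : -(p ^ 2 * w) ≠ p * r := by
    intro e
    apply h5
    have : p * (r + p * w) = 0 := by linear_combination -e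
    rcases mul_eq_zero.mp this with k | k
    · exact absurd k hp
    · linear_combination k
  have n57 : -(p ^ 2 * w) ≠ p * w * r := by
    intro e
    apply h4
    have : p * w * (r + p) = 0 := by linear_combination -e
    rcases mul_eq_zero.mp this with k | k
    · exact absurd k (mul_ne_zero hp hw0)
    · linear_combination k
  have n67 : p * r ≠ p * w * r := by
    intro e
    apply hw1
    have : p * r * (w - 1) = 0 := by linear_combination -e
    rcases mul_eq_zero.mp this with k | k
    · exact absurd k (mul_ne_zero hp hr)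
    · linear_combination k
  have hsub : ({p ^ 2, p ^ 2 * w, p ^ 2 * w ^ 2, -p ^ 2, -(p ^ 2 * w), p * r, p * w * r} :
      Finset ℂ) ⊆ D := by
    intro x hx
    simp only [Finset.mem_insert, Finset.mem_singleton] at hx
    rcases hx with rfl | rfl | rfl | rfl | rfl | rfl | rfl
    · exact a1
    · exact a2
    · exact a3
    · exact a4
    · exact a5
    · exact a6
    · exact a7
  have hcard : ({p ^ 2, p ^ 2 * w, p ^ 2 * w ^ 2, -p ^ 2, -(p ^ 2 * w), p * r, p * w * r} :
      Finset ℂ).card = 7 := by
    rw [Finset.card_insert_of_notMem, Finset.card_insert_of_notMem, Finset.card_insert_of_notMem,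
      Finset.card_insert_of_notMem, Finset.card_insert_of_notMem, Finset.card_insert_of_notMem,
      Finset.card_singleton]
    · rw [Finset.mem_singleton]
      exact n67
    · simp only [Finset.mem_insert, Finset.mem_singleton, not_or]
      exact ⟨n56, n57⟩
    · simp only [Finset.mem_insert, Finset.mem_singleton, not_or]
      exact ⟨n45, n46, n47⟩
    · simp only [Finset.mem_insert, Finset.mem_singleton, not_or]
      exact ⟨n34, n35, n36, n37⟩
    · simp only [Finset.mem_insert, Finset.mem_singleton, not_or]
      exact ⟨n23, n24, n25, n26, n27⟩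
    · simp only [Finset.mem_insert, Finset.mem_singleton, not_or]
      exact ⟨n12, n13, n14, n15, n16, n17⟩
  have := Finset.card_le_card hsub
  omega

end Pool.Agent.Helper56.BR
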