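import Pool.Agent.Helper56.BR.M_CC

set_option autoImplicit false

namespace Pool.Agent.Helper56.BR

open Pool.Agent.Helper82.BR
open scoped ComplexConjugate

private theorem exw : ∃ w : ℂ, w ^ 2 = w - 1 ∧ ‖w‖ = 1 := by
  obtain ⟨w, hw⟩ : ∃ w : ℂ, w ^ 2 = w - 1 := by
    refine ⟨1 / 2 + (Real.sqrt 3 / 2 : ℝ) * Complex.I, ?_⟩
    have h3 : ((Real.sqrt 3 : ℝ) : ℂ) ^ 2 = 3 := by
      rw [← Complex.ofReal_pow, Real.sq_sqrt (by norm_num)]
      norm_num
    push_cast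
    linear_combination (1 / 4 : ℂ) * h3 * Complex.I ^ 2 + (3 / 4 : ℂ) * Complex.I_sq
  refine ⟨w, hw, ?_⟩
  have hw3 : w ^ 3 = -1 := by linear_combination (w + 1) * hw
  have h : ‖w‖ ^ 3 = 1 := by rw [← norm_pow, hw3]; simp
  have h0 : 0 ≤ ‖w‖ := norm_nonneg w
  nlinarith [sq_nonneg (‖w‖ + 1), sq_nonneg (‖w‖ - 1), sq_nonneg ‖w‖,
    mul_self_nonneg (‖w‖ ^ 2 - ‖w‖)]

private theorem coll {S : Finset ℂ} (hNC : StNC) (hS : Rich S) (h2 : 2 ≤ S.card)
    (h7 : S.card ≤ 7) (h0 : (0 : ℂ) ∈ S) {p : ℂ} (hp : p ∈ S) (hp1 : ‖p‖ = 1) :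
    -p ∉ S := by
  intro hm
  have hp0 : p ≠ 0 := by
    intro e
    rw [e] at hp1
    norm_num at hp1
  have hpm : p ≠ -p := by
    intro e
    apply hp0
    linear_combination e / 2
  have := hNC S hS h2 h7 p hp (-p) hm 0 h0 hpm hp0 (neg_ne_zero.mpr hp0)
  apply this
  rw [sub_zero, sub_zero, map_neg, mul_neg, Complex.mul_conj]
  simp

theorem hCE (hNC : StNC) (hCA : StCA) (hCB : StCB) (hCD : StCD) : StCE := by
  classical
  intro S hS h2 h7 h0
  by_contra hcon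
  push Not at hcon
  obtain ⟨w, hw, hw1⟩ := exw
  have hw3 : w ^ 3 = -1 := by linear_combination (w + 1) * hw
  have hw0 : w ≠ 0 := by
    intro e
    rw [e] at hw1
    norm_num at hw1
  obtain ⟨p, hp, q, hq, hpq, hp1, hq1, hpw, hqw⟩ := hCA S w hw hS h0 h7 (by omega)
  have hneg : ∀ x : ℂ, x ∈ S → ‖x‖ = 1 → -x ∉ S := fun x hx hx1 =>
    coll hNC hS h2 h7 h0 hx hx1
  have nz : ∀ x : ℂ, ‖x‖ = 1 → x ≠ 0 := by
    intro x hx e
    rw [e] at hx
    norm_num at hx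
  have nw : ∀ x : ℂ, ‖x‖ = 1 → ‖x * w‖ = 1 := by
    intro x hx
    rw [norm_mul, hx, hw1, mul_one]
  set D : Finset ℂ := (S.erase 0).image (fun s => s / conj s) with hD
  have hDc : D.card ≤ 6 := by
    have h1 : D.card ≤ (S.erase 0).card := Finset.card_image_le
    rw [Finset.card_erase_of_mem h0] at h1
    omega
  have hDm : ∀ x y : ℂ, x ∈ S → y ∈ S → ‖x‖ = 1 → ‖y‖ = 1 → x * y ∈ D := by
    intro x y hx hy hx1 hy1
    obtain ⟨s, hs, hs0, hse⟩ := hCB S hS h0 x hx y hy hx1 hy1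
    rw [hD, Finset.mem_image]
    refine ⟨s, Finset.mem_erase.mpr ⟨hs0, hs⟩, ?_⟩
    have hc : conj s ≠ 0 := (map_ne_zero _).mpr hs0
    rw [div_eq_iff hc]
    exact hse
  -- the case of a chain
  have chain : ∀ a : ℂ, ‖a‖ = 1 → a ∈ S → a * w ∈ S → a * w ^ 2 ∈ S → False := by
    intro a ha1 ha haw haw2
    have haw1 : ‖a * w‖ = 1 := nw a ha1
    have haw21 : ‖a * w ^ 2‖ = 1 := by rw [norm_mul, norm_pow, ha1, hw1]; norm_num
    obtain ⟨r, hr, hr'⟩ : ∃ r ∈ S.filter (fun s => ‖s‖ = 1),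
        r ∉ ({a, a * w, a * w ^ 2} : Finset ℂ) := by
      by_contra hno
      push Not at hno
      have hle := Finset.card_le_card (s := S.filter (fun s => ‖s‖ = 1))
        (t := ({a, a * w, a * w ^ 2} : Finset ℂ)) hno
      have h3 : ({a, a * w, a * w ^ 2} : Finset ℂ).card ≤ 3 := Finset.card_le_three
      omega
    rw [Finset.mem_filter] at hr
    obtain ⟨hrS, hr1⟩ := hr
    simp only [Finset.mem_insert, Finset.mem_singleton, not_or] at hr'
    obtain ⟨r1, r2, r3⟩ := hr'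
    refine hCC' D w a r hw (nz a ha1) (nz r hr1) hDc ?_ r1 r2 r3 ?_ ?_ ?_
    · intro x hx y hy
      have hall : ∀ x ∈ ({a, a * w, a * w ^ 2, r} : Finset ℂ), x ∈ S ∧ ‖x‖ = 1 := by
        intro x hx
        simp only [Finset.mem_insert, Finset.mem_singleton] at hx
        rcases hx with rfl | rfl | rfl | rfl
        · exact ⟨ha, ha1⟩
        · exact ⟨haw, haw1⟩
        · exact ⟨haw2, haw21⟩
        · exact ⟨hrS, hr1⟩
      exact hDm x y (hall x hx).1 (hall y hy).1 (hall x hx).2 (hall y hy).2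
    · intro e
      exact hneg a ha ha1 (e ▸ hrS)
    · intro e
      exact hneg (a * w) haw haw1 (e ▸ hrS)
    · intro e
      exact hneg (a * w ^ 2) haw2 haw21 (e ▸ hrS)
  by_cases c1 : q = p * w
  · apply chain p hp1 hp hpw
    have : q * w = p * w ^ 2 := by rw [c1]; ring
    rwa [this] at hqw
  by_cases c2 : q = p * w ^ 2
  · exact chain p hp1 hp hpw (c2 ▸ hq)
  by_cases c3 : q = -p
  · exact hneg p hp hp1 (c3 ▸ hq)
  by_cases c4 : q = -(p * w)
  · exact hneg (p * w) hpw (nw p hp1) (c4 ▸ hq)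
  by_cases c5 : q = -(p * w ^ 2)
  · have e1 : q * w = p := by rw [c5]; linear_combination -p * hw3
    have e2 : q * w ^ 2 = p * w := by rw [← e1]; ring
    exact chain q hq1 hq hqw (by rw [e2]; exact hpw)
  refine hCD D w p q hw (nz p hp1) (nz q hq1) hDc ?_ (Ne.symm hpq) c1 c2 c3 c4 c5
  intro x hx y hy
  have hall : ∀ x ∈ ({p, p * w, q, q * w} : Finset ℂ), x ∈ S ∧ ‖x‖ = 1 := by
    intro x hx
    simp only [Finset.mem_insert, Finset.mem_singleton] at hx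
    rcases hx with rfl | rfl | rfl | rfl
    · exact ⟨hp, hp1⟩
    · exact ⟨hpw, nw p hp1⟩
    · exact ⟨hq, hq1⟩
    · exact ⟨hqw, nw q hq1⟩
  exact hDm x y (hall x hx).1 (hall y hy).1 (hall x hx).2 (hall y hy).2

end Pool.Agent.Helper56.BR
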